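import Pool.Agent.Helper71.E5.Stmts
import Pool.Agent.Helper22.AX.MONO
import Pool.Agent.Helper22.AX.TSUP
import Pool.Agent.Helper50.AX.HA
import Pool.Agent.Helper97.AX.ARC
import Pool.Agent.Helper97.AX.PER

/-!
MP_efd95c_co: from `Alex m`, `m ≤ 5`, to all configurations whose second intersection is
determined by at most five disks.
-/

set_option autoImplicit false

open scoped MeasureTheory ENNReal
open Complex

noncomputable section

namespace E5

/-- intersections of balls under an isometry -/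
theorem fin5_inter {ι : Type} (φ : EuclideanSpace ℝ (Fin 2) ≃ᵢ ℂ)
    (s : ι → EuclideanSpace ℝ (Fin 2)) (r : ℝ) :
    φ '' (⋂ i, Metric.closedBall (s i) r) = ⋂ i, Metric.closedBall (φ (s i)) r := by
  ext z
  obtain ⟨y, rfl⟩ := φ.surjective z
  rw [φ.injective.mem_set_image]
  simp only [Set.mem_iInter, Metric.mem_closedBall, φ.dist_eq]

theorem fin5_fr {ι : Type} (φ : EuclideanSpace ℝ (Fin 2) ≃ᵢ ℂ)
    (s : ι → EuclideanSpace ℝ (Fin 2)) (r : ℝ) :
    μH[1] (frontier (⋂ i, Metric.closedBall (s i) r)) =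
      μH[1] (frontier (⋂ i, Metric.closedBall (φ (s i)) r)) := by
  rw [← fin5_inter φ s r]
  have h1 : frontier (φ '' (⋂ i, Metric.closedBall (s i) r)) =
      φ '' frontier (⋂ i, Metric.closedBall (s i) r) :=
    (φ.toHomeomorph.image_frontier _).symm
  rw [h1, φ.hausdorffMeasure_image]

/-- monotonicity in the plane -/
theorem fin5_mono (hM : AX.ST_MONO) {n m : ℕ} {r : ℝ} (hr : 0 < r)
    (c : Fin (n + 1) → EuclideanSpace ℝ (Fin 2)) (d : Fin (m + 1) → EuclideanSpace ℝ (Fin 2))
    (h : (⋂ i, Metric.closedBall (c i) r) ⊆ ⋂ i, Metric.closedBall (d i) r) :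
    μH[1] (frontier (⋂ i, Metric.closedBall (c i) r)) ≤
      μH[1] (frontier (⋂ i, Metric.closedBall (d i) r)) := by
  set φ : EuclideanSpace ℝ (Fin 2) ≃ᵢ ℂ :=
    Complex.orthonormalBasisOneI.repr.symm.toIsometryEquiv with hφ
  rw [fin5_fr φ c r, fin5_fr φ d r]
  refine hM n r (fun i => φ (c i)) (⋂ i, Metric.closedBall (φ (d i)) r) hr ?_ ?_
  · have h1 : AX.K r (fun i => φ (c i)) = ⋂ i, Metric.closedBall (φ (c i)) r := rfl
    rw [h1, ← fin5_inter φ c r, ← fin5_inter φ d r]
    exact Set.image_mono h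
  · refine (isCompact_closedBall (φ (d 0)) r).of_isClosed_subset
      (isClosed_iInter fun i => Metric.isClosed_closedBall) (Set.iInter_subset _ 0)

/-- radius `≤ 0` -/
theorem fin5_neg {n : ℕ} {r : ℝ} (hr : r ≤ 0) (c : Fin n → EuclideanSpace ℝ (Fin 2)) :
    μH[1] (frontier (⋂ i, Metric.closedBall (c i) r)) = 0 := by
  rcases Nat.eq_zero_or_pos n with h | h
  · subst h
    have : (⋂ i : Fin 0, Metric.closedBall (c i) r) = Set.univ := by simp
    rw [this]
    simp
  · have hs : (frontier (⋂ i, Metric.closedBall (c i) r)).Subsingleton := by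
      have h1 : frontier (⋂ i, Metric.closedBall (c i) r) ⊆ Metric.closedBall (c ⟨0, h⟩) r := by
        refine (frontier_subset_closure).trans ?_
        refine (closure_mono (Set.iInter_subset _ ⟨0, h⟩)).trans ?_
        rw [Metric.isClosed_closedBall.closure_eq]
      refine Set.Subsingleton.anti ?_ h1
      intro x hx y hy
      rw [Metric.mem_closedBall] at hx hy
      have hx' : x = c ⟨0, h⟩ := dist_le_zero.1 (hx.trans hr)
      have hy' : y = c ⟨0, h⟩ := dist_le_zero.1 (hy.trans hr)
      rw [hx', hy']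
    rcases hs.eq_empty_or_singleton with h2 | ⟨x, h2⟩
    · rw [h2]; simp
    · rw [h2]
      have : MeasureTheory.NullSingletonClass
          (μH[1] : MeasureTheory.Measure (EuclideanSpace ℝ (Fin 2))) :=
        MeasureTheory.Measure.nullSingletonClass_hausdorff _ (by norm_num)
      exact MeasureTheory.measure_singleton x

theorem fin5 (hF : ST_FIVE) (hS : ST_SCALE) (hM : AX.ST_MONO) (n : ℕ) (r : ℝ)
    (p q : Fin n → EuclideanSpace ℝ (Fin 2))
    (hpq : ∀ i j, dist (q i) (q j) ≤ dist (p i) (p j)) (J : Finset (Fin n)) (hc : J.card ≤ 5)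
    (hJ : (⋂ i ∈ J, Metric.closedBall (q i) r) = ⋂ i, Metric.closedBall (q i) r) :
    μH[1] (frontier (⋂ i, Metric.closedBall (p i) r)) ≤
      μH[1] (frontier (⋂ i, Metric.closedBall (q i) r)) := by
  rcases le_or_gt r 0 with hr | hr
  · rw [fin5_neg hr p]
    exact bot_le
  rcases Nat.eq_zero_or_pos n with h0 | h0
  · subst h0
    have : (⋂ i : Fin 0, Metric.closedBall (p i) r) = Set.univ := by simp
    rw [this]
    simp
  obtain ⟨n, rfl⟩ : ∃ k, n = k + 1 := ⟨n - 1, by omega⟩
  -- `J` is nonempty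
  have hJne : J.Nonempty := by
    by_contra hne
    rw [Finset.not_nonempty_iff_eq_empty] at hne
    subst hne
    have h1 : (Set.univ : Set (EuclideanSpace ℝ (Fin 2))) = ⋂ i, Metric.closedBall (q i) r := by
      rw [← hJ]; simp
    have h2 : Bornology.IsBounded (Set.univ : Set (EuclideanSpace ℝ (Fin 2))) := by
      rw [h1]
      exact Metric.isBounded_closedBall.subset (Set.iInter_subset _ 0)
    exact NormedSpace.unbounded_univ ℝ _ h2
  have hcard : 0 < J.card := Finset.card_pos.2 hJne
  obtain ⟨m, hm⟩ : ∃ k, J.card = k + 1 := ⟨J.card - 1, by omega⟩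
  let e : Fin (m + 1) ≃ J := (finCongr hm.symm).trans J.equivFin.symm
  have hinter : ∀ s : Fin (n + 1) → EuclideanSpace ℝ (Fin 2),
      (⋂ k, Metric.closedBall (s (e k)) r) = ⋂ i ∈ J, Metric.closedBall (s i) r := by
    intro s
    ext x
    simp only [Set.mem_iInter]
    constructor
    · intro h i hi
      have := h (e.symm ⟨i, hi⟩)
      rwa [e.apply_symm_apply] at this
    · intro h k
      exact h _ (e k).2
  have h1 : μH[1] (frontier (⋂ i, Metric.closedBall (p i) r)) ≤
      μH[1] (frontier (⋂ k, Metric.closedBall (p (e k)) r)) := by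
    refine fin5_mono hM hr p (fun k => p (e k)) ?_
    intro x hx
    rw [Set.mem_iInter] at hx ⊢
    exact fun k => hx _
  have h2 := hS (m + 1) (hF (m + 1) (by omega)) r (fun k => p (e k)) (fun k => q (e k)) hr
    (fun i j => hpq _ _)
  have h3 : (⋂ k, Metric.closedBall (q (e k)) r) = ⋂ i, Metric.closedBall (q i) r := by
    rw [hinter q, hJ]
  rw [h3] at h2
  exact h1.trans h2

end E5
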