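import Mathlib

/-! Alexander N <= 5: analytic part of the same-order argument (vertex lemma of helper28). -/

namespace E5

open Real

/-- Square of the normal load at a vertex with exterior angle `e` and half tangents `a`, `b`. -/
noncomputable def N2 (e a b : ℝ) : ℝ :=
  2 - 2 * cos e + a ^ 2 + b ^ 2 + 2 * a * b * cos e + 2 * (a + b) * sin e

/-- (form) the load as one cosine -/
def ST_N2form : Prop := ∀ e a b : ℝ,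
  N2 e a b = 2 + a ^ 2 + b ^ 2
    - 2 * (sqrt (1 + a ^ 2) * sqrt (1 + b ^ 2)) * cos (e + arctan a + arctan b)

/-- (M1) -/
def ST_M1 : Prop := ∀ E h x y : ℝ, 0 ≤ x → 0 ≤ y → 0 ≤ h → h ≤ E → E ≤ π →
  N2 E x y ≤ N2 (E - h) (x + h) y

/-- (M2) -/
def ST_M2 : Prop := ∀ e e' x y : ℝ, 0 ≤ e → e ≤ e' → 0 ≤ x → 0 ≤ y →
  e' + arctan x + arctan y ≤ π → N2 e x y ≤ N2 e' x y

/-- (M2) strict -/
def ST_M2s : Prop := ∀ e e' x y : ℝ, 0 ≤ e → e < e' → 0 ≤ x → 0 ≤ y →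
  e' + arctan x + arctan y ≤ π → N2 e x y < N2 e' x y

/-- (D) size of the parameters -/
def ST_D : Prop := ∀ u x : ℝ, 0 ≤ u → u ≤ x → x + u ≤ π - 2 * arctan x →
  x ^ 2 ≤ 2 ∧ (x + u) ^ 2 ≤ 3

/-- (i) -/
def ST_I1 : Prop := ∀ u x : ℝ, 0 ≤ u → u ≤ x → x ^ 2 ≤ 2 → (x + u) ^ 2 ≤ 3 →
  u * (4 * x - u) ≤ 2 * (1 + x ^ 2) * (1 - cos (x + u))

/-- (ii) -/
def ST_I2 : Prop := ∀ u x : ℝ, 0 ≤ u → u ≤ x → x ^ 2 ≤ 2 → (x + u) ^ 2 ≤ 3 →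
  u * (2 * x - u + 4 * x / (1 + x ^ 2)) ≤ 2 * (1 - cos (x + u)) + 2 * x * sin (x + u)

/-- (iii) -/
def ST_I3 : Prop := ∀ u x : ℝ, 0 ≤ u → u ≤ x → x ^ 2 ≤ 2 → (x + u) ^ 2 ≤ 3 →
  u * (2 * x - u) ≤ 2 * (1 - cos (x + u)) + 2 * (x - u) * sin (x + u)

/-- (iv) the corner `b = cot ((x+u)/2)` -/
def ST_I4 : Prop := ∀ u x k : ℝ, 0 ≤ u → u ≤ x → 0 < x → x ^ 2 ≤ 2 → (x + u) ^ 2 ≤ 3 →
  k * sin ((x + u) / 2) = cos ((x + u) / 2) → u * (2 * x - u) + 2 * u * k ≤ 4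

/-- (Q) quasiconcavity in the exterior angle -/
def ST_Q : Prop := ∀ a b x e em : ℝ, 0 ≤ a → a ≤ x → 0 ≤ b → 2 * x - a ≤ e → e ≤ em →
  em ≤ π - 2 * arctan x → em ≤ π - 2 * arctan b →
  min (N2 (2 * x - a) a b - N2 0 x b) (N2 em a b - N2 (em - (2 * x - a)) x b)
    ≤ N2 e a b - N2 (e - (2 * x - a)) x b

/-- (V1) -/
def ST_V1 : Prop := ∀ a b x e : ℝ, 0 ≤ a → a ≤ x → 0 ≤ b → 2 * x - a ≤ e →
  e ≤ π - 2 * arctan x → e ≤ π - 2 * arctan b → N2 (e - (2 * x - a)) x b ≤ N2 e a b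

/-- (K) kink vertices: the load is at most exterior angle plus half tangents -/
def ST_K : Prop := ∀ e x y : ℝ, 0 ≤ x → 0 ≤ y → 0 ≤ e → e ≤ π → N2 e x y ≤ (e + x + y) ^ 2

/-- VERTEX LEMMA (credits: `x` for a common side with `x ≤ a`, `2x` for a chain side) -/
def ST_VL : Prop := ∀ eq ep a b x y c d : ℝ, 0 ≤ a → 0 ≤ b → 0 ≤ x → 0 ≤ y →
  0 ≤ eq → eq ≤ π → 0 ≤ ep → ep ≤ π - 2 * arctan a → ep ≤ π - 2 * arctan b →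
  ep ≤ π - 2 * arctan x → ep ≤ π - 2 * arctan y → N2 ep a b ≤ N2 eq x y →
  (x ≤ a ∧ c = x ∨ c = 2 * x) → (y ≤ b ∧ d = y ∨ d = 2 * y) → ep + a + b ≤ eq + c + d

end E5
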